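import Mathlib
import Pool.Agent.W587.NN.A

set_option autoImplicit false

/-!
# The numbers `n ^ n + 1` in the family `⌊β n ^ n⌋ + 1`

`n ^ n + 1` (with `n > 1`) can be prime only for `n = 2 ^ 2 ^ k`, when it is the Fermat number with
index `k + 2 ^ k`, and for `k ≥ 1` all its prime factors exceed `2 ^ (k + 2 ^ k + 2)`.
We compute the exact asymptotics, as `K → ∞`, of the Lebesgue measure of the set of multipliers `β`
for which the part of `⌊β n ^ n⌋ + 1`, `n = 2 ^ 2 ^ k`, made of the prime factors exceeding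
`2 ^ (k + 2 ^ k + 2)` is a prime for at least one `k ≥ K`.
-/

namespace Pool.Agent.Results.MP_a70bdc_nt.MultiplierLaw

open Filter Topology MeasureTheory

/-- The product, with multiplicity, of the prime factors of `n` exceeding `z`. -/
def rough (z n : ℕ) : ℕ := (n.primeFactorsList.filter (fun r => z < r)).prod

/-- the numbers `n > 1` for which `n ^ n + 1` can be prime -/
def N (k : ℕ) : ℕ := 2 ^ (2 ^ k)

lemma rough_eq_self {z m : ℕ} (hm : m ≠ 0) (h : ∀ q : ℕ, q.Prime → q ∣ m → z < q) :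
    rough z m = m := by
  unfold rough
  have h2 : m.primeFactorsList.filter (fun r => z < r) = m.primeFactorsList := by
    rw [List.filter_eq_self]
    intro r hr
    exact decide_eq_true (h r (Nat.prime_of_mem_primeFactorsList hr)
      (Nat.dvd_of_mem_primeFactorsList hr))
  rw [h2]
  exact Nat.prod_primeFactorsList hm

lemma N_pow (k : ℕ) : N k ^ N k = 2 ^ (2 ^ (k + 2 ^ k)) := by
  unfold N
  rw [← pow_mul, ← pow_add]

theorem result :
    (∀ k : ℕ, 1 ≤ k →
      rough (2 ^ (k + 2 ^ k + 2)) (⌊(1 : ℝ) * (N k : ℝ) ^ N k⌋₊ + 1) = N k ^ N k + 1) ∧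
    ∀ a b : ℝ, 0 < a → a < b →
      Tendsto (fun K : ℕ => (volume {β : ℝ | β ∈ Set.Ioc a b ∧ ∃ k : ℕ, K ≤ k ∧
        (rough (2 ^ (k + 2 ^ k + 2)) (⌊β * (N k : ℝ) ^ N k⌋₊ + 1)).Prime}).toReal *
          (2 ^ (K + 2 ^ K) / ((K + 2 ^ K : ℕ) : ℝ))) atTop
        (𝓝 (Real.exp Real.eulerMascheroniConstant * (b - a))) := by
  have hN : ∀ k : ℕ, (N k : ℝ) ^ N k = 2 ^ (2 ^ (k + 2 ^ k)) := fun k => by
    have h := N_pow k
    exact_mod_cast h
  refine ⟨fun k hk => ?_, fun a b ha hab => ?_⟩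
  · have e : ⌊(1 : ℝ) * (N k : ℝ) ^ N k⌋₊ + 1 = N k ^ N k + 1 := by
      rw [one_mul]
      have : ((N k : ℝ) ^ N k) = ((N k ^ N k : ℕ) : ℝ) := by push_cast; rfl
      rw [this, Nat.floor_natCast]
    rw [e]
    have hf : N k ^ N k + 1 = Nat.fermatNumber (k + 2 ^ k) := by
      rw [N_pow, Nat.fermatNumber]
    have hk2 : k < 2 ^ k := Nat.lt_two_pow_self
    rw [hf]
    refine rough_eq_self (by
      have := Nat.three_le_fermatNumber (k + 2 ^ k)
      omega) fun q hq hdvd => ?_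
    obtain ⟨j, hj⟩ := Nat.fermat_primeFactors_one_lt (k + 2 ^ k) q (by omega) hq hdvd
    rcases Nat.eq_zero_or_pos j with h0 | hpos
    · rw [h0, zero_mul, zero_add] at hj
      exact absurd hj hq.one_lt.ne'
    · rw [hj]
      have : 1 * 2 ^ (k + 2 ^ k + 2) ≤ j * 2 ^ (k + 2 ^ k + 2) := Nat.mul_le_mul_right _ hpos
      omega
  · have h := Pool.Agent.W587.NN.law_nn ha hab
    simp only [hN]
    exact h

end Pool.Agent.Results.MP_a70bdc_nt.MultiplierLaw
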